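import Mathlib
import Pool.Agent.H197R3.SF.Stmts

/-! Project H197-SF, task U1 (helper412): the atomic coefficients are determined. -/

set_option autoImplicit false

open MeasureTheory Filter Topology Set
open scoped FourierTransform

namespace Pool.Agent.H412R3.SFU1

open Pool.Agent.H197R3.SF

lemma norm_ch (ω t : ℝ) : ‖ch ω t‖ = 1 := by
  rw [ch, Complex.norm_exp]
  simp

lemma ch_add (ω t s : ℝ) : ch ω (t + s) = ch ω t * ch ω s := by
  rw [ch, ch, ch, ← Complex.exp_add]
  congr 1
  push_cast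
  ring

lemma ch_pow (h t : ℝ) (n : ℕ) : ch (n * h) t = ch h t ^ n := by
  rw [ch, ch, ← Complex.exp_nat_mul]
  congr 1
  push_cast
  ring

/-- Riemann-Lebesgue -/
lemma rl (f : ℝ → ℂ) {h : ℝ} (hh : 0 < h) :
    Tendsto (fun n : ℕ => ∫ t, f t * ch (n * h) t) atTop (𝓝 0) := by
  have h1 := Real.tendsto_integral_exp_smul_cocompact f
  have h2 : Tendsto (fun n : ℕ => (n * h) / (2 * Real.pi)) atTop (cocompact ℝ) := by
    refine Tendsto.mono_right ?_ atTop_le_cocompact
    refine Tendsto.atTop_div_const (by positivity) ?_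
    exact Tendsto.atTop_mul_const hh tendsto_natCast_atTop_atTop
  refine (h1.comp h2).congr fun n => ?_
  refine integral_congr_ae (Eventually.of_forall fun t => ?_)
  show (𝐞 (-(t * (n * h / (2 * Real.pi)))) : Circle) • f t = f t * ch (n * h) t
  rw [Circle.smul_def, Real.fourierChar_apply, ch, smul_eq_mul, mul_comm]
  congr 2
  have : (Real.pi : ℂ) ≠ 0 := by exact_mod_cast Real.pi_ne_zero
  push_cast
  field_simp

lemma geom_avg {z : ℂ} (hz : ‖z‖ = 1) (h1 : z ≠ 1) :
    Tendsto (fun N : ℕ => ((N : ℝ)⁻¹ : ℝ) • ∑ n ∈ Finset.range N, z ^ n) atTop (𝓝 0) := by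
  have hz1 : 0 < ‖z - 1‖ := norm_pos_iff.2 (sub_ne_zero.2 h1)
  rw [tendsto_zero_iff_norm_tendsto_zero]
  have hlim : Tendsto (fun N : ℕ => (N : ℝ)⁻¹ * (2 / ‖z - 1‖)) atTop (𝓝 0) := by
    have := (tendsto_inv_atTop_nhds_zero_nat (𝕜 := ℝ)).mul_const (2 / ‖z - 1‖)
    simpa using this
  refine squeeze_zero (fun _ => norm_nonneg _) (fun N => ?_) hlim
  rw [norm_smul, Real.norm_of_nonneg (by positivity)]
  refine mul_le_mul_of_nonneg_left ?_ (by positivity)
  rw [geom_sum_eq h1, norm_div]
  refine div_le_div_of_nonneg_right ?_ hz1.le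
  calc ‖z ^ N - 1‖ ≤ ‖z ^ N‖ + ‖(1 : ℂ)‖ := norm_sub_le _ _
    _ = 2 := by rw [norm_pow, hz]; norm_num

lemma exists_step (S : Set ℝ) (hS : S.Countable) (s : ℝ) :
    ∃ h : ℝ, 0 < h ∧ ∀ t ∈ S, t ≠ s → ch h (t - s) ≠ 1 := by
  let B : Set ℝ := ⋃ t ∈ S, ⋃ k : ℤ, {2 * Real.pi * k / (t - s)}
  have hB : B.Countable := hS.biUnion fun t _ => countable_iUnion fun k => countable_singleton _
  obtain ⟨h, hh, hhB⟩ := (hB.dense_compl ℝ).exists_mem_open (isOpen_Ioi (a := (0 : ℝ))) ⟨1, mem_Ioi.2 one_pos⟩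
  refine ⟨h, hhB, fun t ht hts hch => ?_⟩
  apply hh
  rw [ch, Complex.exp_eq_one_iff] at hch
  obtain ⟨n, hn⟩ := hch
  have h3 : (h * (t - s) : ℝ) = -(n * (2 * Real.pi)) := by
    have h4 : ((h * (t - s) : ℝ) : ℂ) = ((-(n * (2 * Real.pi)) : ℝ) : ℂ) := by
      have hI : Complex.I ≠ 0 := Complex.I_ne_zero
      apply mul_right_cancel₀ hI
      push_cast at hn ⊢
      linear_combination -hn
    exact_mod_cast h4
  have hts' : t - s ≠ 0 := sub_ne_zero.2 hts
  refine mem_biUnion ht (mem_iUnion.2 ⟨-n, ?_⟩)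
  rw [mem_singleton_iff, eq_div_iff hts', h3]
  push_cast
  ring

theorem taskU1 : TaskU1 := by
  intro f c _ hc hzero s
  obtain ⟨h, hh, hS⟩ := exists_step (Function.support c) hc.of_norm.countable_support s
  let z : ℝ → ℂ := fun t => ch h (t - s)
  have hz : ∀ t, ‖z t‖ = 1 := fun t => norm_ch _ _
  let a : ℕ → ℂ := fun n => ∑' t, c t * z t ^ n
  have hsum : ∀ n : ℕ, Summable fun t => c t * z t ^ n := fun n => by
    refine Summable.of_norm (hc.congr fun t => ?_)
    rw [norm_mul, norm_pow, hz, one_pow, mul_one]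
  have ha0 : Tendsto a atTop (𝓝 0) := by
    have h1 : ∀ n, a n = -(ch (n * h) (-s) * ∫ t, f t * ch (n * h) t) := by
      intro n
      have h2 := hzero (n * h)
      have h3 : a n = ch (n * h) (-s) * ∑' t : ℝ, c t * ch (n * h) t := by
        rw [← tsum_mul_left]
        refine tsum_congr fun t => ?_
        show c t * ch h (t - s) ^ n = _
        rw [← ch_pow, sub_eq_add_neg, ch_add]
        ring
      rw [h3, ← mul_neg]
      congr 1
      linear_combination h2
    rw [tendsto_zero_iff_norm_tendsto_zero]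
    have h4 := (tendsto_zero_iff_norm_tendsto_zero.1 (rl f hh))
    refine h4.congr fun n => ?_
    rw [h1 n, norm_neg, norm_mul, norm_ch, one_mul]
  have hces := ha0.cesaro_smul
  have hlim : Tendsto (fun N : ℕ => ((N : ℝ)⁻¹ : ℝ) • ∑ n ∈ Finset.range N, a n) atTop
      (𝓝 (∑' t, if t = s then c s else 0)) := by
    have h5 : ∀ N : ℕ, ((N : ℝ)⁻¹ : ℝ) • ∑ n ∈ Finset.range N, a n =
        ∑' t, c t * (((N : ℝ)⁻¹ : ℝ) • ∑ n ∈ Finset.range N, z t ^ n) := by
      intro N
      rw [← Summable.tsum_finsetSum (fun n _ => hsum n), ← tsum_const_smul'']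
      refine tsum_congr fun t => ?_
      rw [← Finset.mul_sum, mul_smul_comm]
    simp_rw [h5]
    refine tendsto_tsum_of_dominated_convergence hc ?_ ?_
    · intro t
      by_cases hts : t = s
      · subst hts
        simp only [if_true]
        have h6 : z t = 1 := by
          show ch h (t - t) = 1
          rw [sub_self, ch]; simp
        have h7 : ∀ᶠ N : ℕ in atTop,
            c t = c t * (((N : ℝ)⁻¹ : ℝ) • ∑ n ∈ Finset.range N, z t ^ n) := by
          filter_upwards [eventually_gt_atTop 0] with N hN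
          have hN' : (N : ℝ) ≠ 0 := by exact_mod_cast hN.ne'
          rw [h6]
          simp only [one_pow, Finset.sum_const, Finset.card_range, nsmul_eq_mul, mul_one,
            Complex.real_smul]
          push_cast
          rw [inv_mul_cancel₀ (by exact_mod_cast hN.ne'), mul_one]
        exact tendsto_const_nhds.congr' h7
      · simp only [if_neg hts]
        by_cases hct : c t = 0
        · simp [hct]
        · have h8 := (geom_avg (hz t) (hS t hct hts)).const_mul (c t)
          rwa [mul_zero] at h8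
    · filter_upwards with N t
      rw [norm_mul]
      refine mul_le_of_le_one_right (norm_nonneg _) ?_
      rw [norm_smul, Real.norm_of_nonneg (by positivity)]
      have h9 : ‖∑ n ∈ Finset.range N, z t ^ n‖ ≤ N := by
        refine (norm_sum_le _ _).trans ?_
        simp [hz]
      rcases Nat.eq_zero_or_pos N with rfl | hN
      · simp
      · have hN' : (0 : ℝ) < N := by exact_mod_cast hN
        calc (N : ℝ)⁻¹ * ‖∑ n ∈ Finset.range N, z t ^ n‖ ≤ (N : ℝ)⁻¹ * N :=
              mul_le_mul_of_nonneg_left h9 (by positivity)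
          _ = 1 := inv_mul_cancel₀ hN'.ne'
  have h10 := tendsto_nhds_unique hlim hces
  rw [tsum_ite_eq] at h10
  exact h10

end Pool.Agent.H412R3.SFU1
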